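import Mathlib

/-!
# Zero sum families
-/

set_option autoImplicit false
set_option linter.unusedSectionVars false

namespace Pool.Agent.H926.B

/-- The bound for the dimensions of the abelian varieties which carry the Weil classes. -/
def bnd (g : ℕ) : ℕ := max g (max (2 * g - 4) (g * g / 2 - 2 * g))

section zs

variable {S : Type} [DecidableEq S] (t : S → ℤ) (B : Finset S) (A C : ℕ)

theorem zs_step (hC0 : 0 < C) (hmin : ∀ B' ⊂ B, B'.Nonempty → ∑ x ∈ B', t x ≠ 0)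
    (h0 : ∑ x ∈ B, t x = 0) (hne : ∀ x ∈ B, t x ≠ 0) (hA : ∀ x ∈ B, t x ≤ A)
    (hC : ∀ x ∈ B, -(C : ℤ) ≤ t x) (k : ℕ) (hk : k ≤ B.card) :
    ∃ R ⊆ B, R.card = k ∧ -(C : ℤ) < ∑ x ∈ R, t x ∧ ∑ x ∈ R, t x ≤ A ∧
      ∃ U V : Finset ℤ, U.card = (R.filter fun x => 0 < t x).card ∧
        V.card = (R.filter fun x => t x < 0).card ∧ U ⊆ Finset.Ioc (-(C : ℤ)) 0 ∧
          V ⊆ Finset.Ioc 0 (A : ℤ) ∧ (∀ u ∈ U, ∃ R' ⊂ R, ∑ x ∈ R', t x = u) ∧
            ∀ u ∈ V, ∃ R' ⊂ R, ∑ x ∈ R', t x = u := by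
  induction k with
  | zero =>
    refine ⟨∅, Finset.empty_subset _, rfl, ?_, ?_, ∅, ∅, ?_, ?_, Finset.empty_subset _,
      Finset.empty_subset _, fun u hu => absurd hu (Finset.notMem_empty u),
      fun u hu => absurd hu (Finset.notMem_empty u)⟩
    · rw [Finset.sum_empty]
      omega
    · rw [Finset.sum_empty]
      omega
    · rfl
    · rfl
  | succ k ih =>
    obtain ⟨R, hR, hRk, s1, s2, U, V, c1, c2, u1, v1, u2, v2⟩ := ih (by omega)
    have hss : R ⊂ B := by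
      refine Finset.ssubset_iff_subset_ne.2 ⟨hR, fun h => ?_⟩
      rw [h] at hRk
      omega
    have hdiff : (B \ R).Nonempty := Finset.sdiff_nonempty.2 hss.2
    have hsum : ∑ x ∈ B \ R, t x = -∑ x ∈ R, t x := by
      have h1 := Finset.sum_sdiff (f := t) hR
      rw [h0] at h1
      linarith
    have hnew : ∀ R' ⊂ R, ∑ x ∈ R', t x ≠ ∑ x ∈ R, t x := by
      intro R' hR' h1
      have h2 : ∑ x ∈ R \ R', t x = 0 := by
        have h3 := Finset.sum_sdiff (f := t) hR'.1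
        linarith
      refine hmin (R \ R') ?_ (Finset.sdiff_nonempty.2 hR'.2) h2
      exact lt_of_le_of_lt Finset.sdiff_subset hss
    rcases le_or_gt (∑ x ∈ R, t x) 0 with hs | hs
    · obtain ⟨x, hx, hx0⟩ : ∃ x ∈ B \ R, 0 < t x := by
        by_contra hcon
        push Not at hcon
        have h1 : ∑ x ∈ B \ R, t x < 0 := by
          refine Finset.sum_neg (fun y hy => ?_) hdiff
          exact lt_of_le_of_ne (hcon y hy) (hne y (Finset.mem_sdiff.1 hy).1)
        omega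
      obtain ⟨hxB, hxR⟩ := Finset.mem_sdiff.1 hx
      have hxA := hA x hxB
      refine ⟨insert x R, Finset.insert_subset hxB hR, by
        rw [Finset.card_insert_of_notMem hxR, hRk], ?_, ?_, insert (∑ x ∈ R, t x) U, V, ?_, ?_,
        ?_, v1, ?_, ?_⟩
      · rw [Finset.sum_insert hxR]
        omega
      · rw [Finset.sum_insert hxR]
        omega
      · have h1 : (∑ x ∈ R, t x) ∉ U := fun h => by
          obtain ⟨R', hR', h2⟩ := u2 _ h
          exact hnew R' hR' h2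
        rw [Finset.card_insert_of_notMem h1, c1, Finset.filter_insert, if_pos hx0,
          Finset.card_insert_of_notMem]
        exact fun h => hxR (Finset.mem_filter.1 h).1
      · rw [c2, Finset.filter_insert, if_neg (by omega)]
      · refine Finset.insert_subset ?_ u1
        rw [Finset.mem_Ioc]
        exact ⟨s1, hs⟩
      · intro u hu
        rcases Finset.mem_insert.1 hu with h1 | h1
        · exact ⟨R, Finset.ssubset_insert hxR, h1.symm⟩
        · obtain ⟨R', hR', h2⟩ := u2 u h1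
          exact ⟨R', hR'.trans (Finset.ssubset_insert hxR), h2⟩
      · intro u hu
        obtain ⟨R', hR', h2⟩ := v2 u hu
        exact ⟨R', hR'.trans (Finset.ssubset_insert hxR), h2⟩
    · obtain ⟨x, hx, hx0⟩ : ∃ x ∈ B \ R, t x < 0 := by
        by_contra hcon
        push Not at hcon
        have h1 : 0 ≤ ∑ x ∈ B \ R, t x := Finset.sum_nonneg hcon
        omega
      obtain ⟨hxB, hxR⟩ := Finset.mem_sdiff.1 hx
      have hxC := hC x hxB
      refine ⟨insert x R, Finset.insert_subset hxB hR, by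
        rw [Finset.card_insert_of_notMem hxR, hRk], ?_, ?_, U, insert (∑ x ∈ R, t x) V, ?_, ?_,
        u1, ?_, ?_, ?_⟩
      · rw [Finset.sum_insert hxR]
        omega
      · rw [Finset.sum_insert hxR]
        omega
      · rw [c1, Finset.filter_insert, if_neg (by omega)]
      · have h1 : (∑ x ∈ R, t x) ∉ V := fun h => by
          obtain ⟨R', hR', h2⟩ := v2 _ h
          exact hnew R' hR' h2
        rw [Finset.card_insert_of_notMem h1, c2, Finset.filter_insert, if_pos hx0,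
          Finset.card_insert_of_notMem]
        exact fun h => hxR (Finset.mem_filter.1 h).1
      · refine Finset.insert_subset ?_ v1
        rw [Finset.mem_Ioc]
        exact ⟨hs, s2⟩
      · intro u hu
        obtain ⟨R', hR', h2⟩ := u2 u hu
        exact ⟨R', hR'.trans (Finset.ssubset_insert hxR), h2⟩
      · intro u hu
        rcases Finset.mem_insert.1 hu with h1 | h1
        · exact ⟨R, Finset.ssubset_insert hxR, h1.symm⟩
        · obtain ⟨R', hR', h2⟩ := v2 u h1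
          exact ⟨R', hR'.trans (Finset.ssubset_insert hxR), h2⟩

/-- Minimal families with sum zero are short. -/
theorem zs_short (hC0 : 0 < C) (hmin : ∀ B' ⊂ B, B'.Nonempty → ∑ x ∈ B', t x ≠ 0)
    (h0 : ∑ x ∈ B, t x = 0) (hne : ∀ x ∈ B, t x ≠ 0) (hA : ∀ x ∈ B, t x ≤ A)
    (hC : ∀ x ∈ B, -(C : ℤ) ≤ t x) :
    (B.filter fun x => 0 < t x).card ≤ C ∧ (B.filter fun x => t x < 0).card ≤ A := by
  obtain ⟨R, hR, hRk, -, -, U, V, c1, c2, u1, v1, -, -⟩ :=
    zs_step t B A C hC0 hmin h0 hne hA hC B.card le_rfl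
  obtain rfl : R = B := Finset.eq_of_subset_of_card_le hR hRk.ge
  refine ⟨?_, ?_⟩
  · rw [← c1]
    refine (Finset.card_le_card u1).trans ?_
    rw [Int.card_Ioc]
    omega
  · rw [← c2]
    refine (Finset.card_le_card v1).trans ?_
    rw [Int.card_Ioc]
    omega

end zs

theorem arith {g p q : ℕ} (hp : 0 < p) (hq : 0 < q) (hp2 : p ≠ 2) (hq2 : q ≠ 2)
    (h : p + q ≤ g) : max 1 (q - 2) * p + max 1 (p - 2) * q ≤ bnd g := by
  unfold bnd
  rcases Nat.lt_or_ge p 2 with h1 | h1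
  · obtain rfl : p = 1 := by omega
    rcases Nat.lt_or_ge q 2 with h2 | h2
    · obtain rfl : q = 1 := by omega
      refine le_trans ?_ (le_max_left _ _)
      simpa using h
    · refine le_trans ?_ (le_trans (le_max_left _ _) (le_max_right _ _))
      have e1 : max 1 (q - 2) = q - 2 := by omega
      have e2 : max 1 (1 - 2) = 1 := by omega
      rw [e1, e2]
      omega
  · rcases Nat.lt_or_ge q 2 with h2 | h2
    · obtain rfl : q = 1 := by omega
      refine le_trans ?_ (le_trans (le_max_left _ _) (le_max_right _ _))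
      have e1 : max 1 (p - 2) = p - 2 := by omega
      have e2 : max 1 (1 - 2) = 1 := by omega
      rw [e1, e2]
      omega
    · refine le_trans ?_ (le_trans (le_max_right _ _) (le_max_right _ _))
      obtain ⟨a, rfl⟩ : ∃ a, p = a + 3 := ⟨p - 3, by omega⟩
      obtain ⟨b, rfl⟩ : ∃ b, q = b + 3 := ⟨q - 3, by omega⟩
      obtain ⟨k, rfl⟩ : ∃ k, g = a + 3 + (b + 3) + k := ⟨g - (a + 3 + (b + 3)), by omega⟩
      have e1 : max 1 (b + 3 - 2) = b + 1 := by omega
      have e2 : max 1 (a + 3 - 2) = a + 1 := by omega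
      rw [e1, e2]
      have key : 2 * (((b + 1) * (a + 3) + (a + 1) * (b + 3)) + 2 * (a + 3 + (b + 3) + k)) ≤
          (a + 3 + (b + 3) + k) * (a + 3 + (b + 3) + k) := by
        zify
        nlinarith [sq_nonneg ((a : ℤ) - b), sq_nonneg (k : ℤ), mul_nonneg (Int.natCast_nonneg k)
          (Int.natCast_nonneg a), mul_nonneg (Int.natCast_nonneg k) (Int.natCast_nonneg b)]
      obtain ⟨X, hX⟩ : ∃ X, X = (b + 1) * (a + 3) + (a + 1) * (b + 3) := ⟨_, rfl⟩
      obtain ⟨Y, hY⟩ : ∃ Y, Y = (a + 3 + (b + 3) + k) * (a + 3 + (b + 3) + k) := ⟨_, rfl⟩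
      rw [← hX, ← hY] at key
      rw [← hX, ← hY]
      omega

/-- **Small balanced subfamilies.** -/
theorem comb {S : Type} [DecidableEq S] (d : S → ℕ) (t : S → ℤ) (g : ℕ) (A : Finset S)
    (hA : A.Nonempty) (h0 : ∑ x ∈ A, t x = 0) (hd0 : ∀ x ∈ A, 0 < d x) (h1 : ∀ x ∈ A, d x ≤ g)
    (h2 : ∀ x ∈ A, t x ≠ 0 → d x ≠ 2 ∧ (t x).natAbs ≤ max 1 (d x - 2))
    (h3 : ∀ x ∈ A, ∀ y ∈ A, 0 < t x → t y < 0 → d x + d y ≤ g) :
    ∃ B ⊆ A, B.Nonempty ∧ ∑ x ∈ B, t x = 0 ∧ ∑ x ∈ B, d x ≤ bnd g := by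
  by_cases hz : ∃ x ∈ A, t x = 0
  · obtain ⟨x, hx, hx0⟩ := hz
    refine ⟨{x}, Finset.singleton_subset_iff.2 hx, Finset.singleton_nonempty x, ?_, ?_⟩
    · rw [Finset.sum_singleton, hx0]
    · rw [Finset.sum_singleton]
      exact (h1 x hx).trans (le_max_left _ _)
  push Not at hz
  -- a minimal subfamily
  obtain ⟨B, hB, hmin⟩ : ∃ B, (B ⊆ A ∧ B.Nonempty ∧ ∑ x ∈ B, t x = 0) ∧
      ∀ B' ⊂ B, B'.Nonempty → ∑ x ∈ B', t x ≠ 0 := by
    have key : ∀ n : ℕ, ∀ B : Finset S, B.card = n → B ⊆ A ∧ B.Nonempty ∧ ∑ x ∈ B, t x = 0 →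
        ∃ B, (B ⊆ A ∧ B.Nonempty ∧ ∑ x ∈ B, t x = 0) ∧
          ∀ B' ⊂ B, B'.Nonempty → ∑ x ∈ B', t x ≠ 0 := by
      intro n
      induction n using Nat.strong_induction_on with
      | _ n ih =>
        intro B hBn hB
        by_cases hc : ∃ B' ⊂ B, B'.Nonempty ∧ ∑ x ∈ B', t x = 0
        · obtain ⟨B', hB', hB'n, hB'0⟩ := hc
          exact ih B'.card (by rw [← hBn]; exact Finset.card_lt_card hB') B' rfl
            ⟨hB'.1.trans hB.1, hB'n, hB'0⟩
        · push Not at hc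
          exact ⟨B, hB, hc⟩
    exact key A.card A rfl ⟨Finset.Subset.refl A, hA, h0⟩
  obtain ⟨hBA, hBn, hB0⟩ := hB
  have hne : ∀ x ∈ B, t x ≠ 0 := fun x hx => hz x (hBA hx)
  obtain ⟨P, hP⟩ : ∃ P, P = B.filter fun x => 0 < t x := ⟨_, rfl⟩
  obtain ⟨N, hN⟩ : ∃ N, N = B.filter fun x => t x < 0 := ⟨_, rfl⟩
  have hPn : P.Nonempty := by
    by_contra hcon
    rw [Finset.not_nonempty_iff_eq_empty] at hcon
    have h4 : ∑ x ∈ B, t x < 0 := by
      refine Finset.sum_neg (fun y hy => ?_) hBn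
      refine lt_of_le_of_ne ?_ (hne y hy)
      by_contra h5
      push Not at h5
      have h6 : y ∈ P := by rw [hP]; exact Finset.mem_filter.2 ⟨hy, h5⟩
      rw [hcon] at h6
      exact absurd h6 (Finset.notMem_empty y)
    omega
  have hNn : N.Nonempty := by
    by_contra hcon
    rw [Finset.not_nonempty_iff_eq_empty] at hcon
    have h4 : 0 < ∑ x ∈ B, t x := by
      refine Finset.sum_pos (fun y hy => ?_) hBn
      refine lt_of_le_of_ne ?_ (hne y hy).symm
      by_contra h5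
      push Not at h5
      have h6 : y ∈ N := by rw [hN]; exact Finset.mem_filter.2 ⟨hy, h5⟩
      rw [hcon] at h6
      exact absurd h6 (Finset.notMem_empty y)
    omega
  obtain ⟨x₀, hx₀, hxm⟩ := Finset.exists_max_image P d hPn
  obtain ⟨y₀, hy₀, hym⟩ := Finset.exists_max_image N d hNn
  have hx₀' : x₀ ∈ B ∧ 0 < t x₀ := by rw [hP] at hx₀; exact Finset.mem_filter.1 hx₀
  have hy₀' : y₀ ∈ B ∧ t y₀ < 0 := by rw [hN] at hy₀; exact Finset.mem_filter.1 hy₀
  have hpq := h3 x₀ (hBA hx₀'.1) y₀ (hBA hy₀'.1) hx₀'.2 hy₀'.2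
  have hAb : ∀ x ∈ B, t x ≤ (max 1 (d x₀ - 2) : ℕ) := by
    intro x hx
    rcases lt_or_ge 0 (t x) with h4 | h4
    · have h5 := (h2 x (hBA hx) h4.ne').2
      have h6 : d x ≤ d x₀ := hxm x (by rw [hP]; exact Finset.mem_filter.2 ⟨hx, h4⟩)
      omega
    · have : (0 : ℤ) ≤ ((max 1 (d x₀ - 2) : ℕ) : ℤ) := Int.natCast_nonneg _
      omega
  have hCb : ∀ x ∈ B, -((max 1 (d y₀ - 2) : ℕ) : ℤ) ≤ t x := by
    intro x hx
    rcases lt_or_ge (t x) 0 with h4 | h4
    · have h5 := (h2 x (hBA hx) h4.ne).2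
      have h6 : d x ≤ d y₀ := hym x (by rw [hN]; exact Finset.mem_filter.2 ⟨hx, h4⟩)
      omega
    · have : (0 : ℤ) ≤ ((max 1 (d y₀ - 2) : ℕ) : ℤ) := Int.natCast_nonneg _
      omega
  obtain ⟨k1, k2⟩ := zs_short t B (max 1 (d x₀ - 2)) (max 1 (d y₀ - 2)) (by omega) hmin hB0 hne hAb hCb
  refine ⟨B, hBA, hBn, hB0, ?_⟩
  have hsplit : ∑ x ∈ B, d x = ∑ x ∈ P, d x + ∑ x ∈ N, d x := by
    have h4 : B = P ∪ N := by
      ext x
      rw [Finset.mem_union, hP, hN, Finset.mem_filter, Finset.mem_filter]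
      constructor
      · intro hx
        rcases lt_trichotomy (t x) 0 with h5 | h5 | h5
        · exact Or.inr ⟨hx, h5⟩
        · exact absurd h5 (hne x hx)
        · exact Or.inl ⟨hx, h5⟩
      · rintro (h5 | h5) <;> exact h5.1
    have h5 : Disjoint P N := by
      rw [Finset.disjoint_left]
      intro x h6 h7
      rw [hP] at h6
      rw [hN] at h7
      have h8 := (Finset.mem_filter.1 h6).2
      have h9 := (Finset.mem_filter.1 h7).2
      omega
    conv_lhs => rw [h4]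
    exact Finset.sum_union h5
  have hPs : ∑ x ∈ P, d x ≤ max 1 (d y₀ - 2) * d x₀ := by
    calc ∑ x ∈ P, d x ≤ P.card • d x₀ := Finset.sum_le_card_nsmul P d (d x₀) hxm
      _ = P.card * d x₀ := smul_eq_mul _ _
      _ ≤ _ := Nat.mul_le_mul_right _ (by rw [hP]; exact k1)
  have hNs : ∑ x ∈ N, d x ≤ max 1 (d x₀ - 2) * d y₀ := by
    calc ∑ x ∈ N, d x ≤ N.card • d y₀ := Finset.sum_le_card_nsmul N d (d y₀) hym
      _ = N.card * d y₀ := smul_eq_mul _ _
      _ ≤ _ := Nat.mul_le_mul_right _ (by rw [hN]; exact k2)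
  rw [hsplit]
  refine (add_le_add hPs hNs).trans ?_
  exact arith (hd0 _ (hBA hx₀'.1)) (hd0 _ (hBA hy₀'.1))
    (h2 _ (hBA hx₀'.1) hx₀'.2.ne').1 (h2 _ (hBA hy₀'.1) hy₀'.2.ne).1 hpq

end Pool.Agent.H926.B
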