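import Mathlib
import Pool.Agent.H926.A.Q6
import Pool.Agent.H926.A.Qtr
import Pool.Agent.H926.A.Qtwo
import Pool.Agent.H926.A.Qdet1
import Pool.Agent.H926.B.Comb
import Pool.Agent.H926.Sep2

/-!
# Irreducible submodules which are not symplectic: dimensions and traces
-/

set_option autoImplicit false
set_option linter.unusedSectionVars false

namespace Pool.Agent.H926.B

open Matrix Module Pool.Agent.W437.HC Pool.Agent.W437.HD Pool.Agent.TH504.CB Pool.Agent.W522.U
open Pool.Agent.Y90 hiding mulA exists_lam mulA_altQ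
open Pool.Agent.W548.Odd hiding cv
open Pool.Agent.W437.HP (cK cK_mul cK_one)
open Pool.Agent.Y4.P (MaxM EigM cx mem_eigM om_real)
open Pool.Agent.Y4.Q (finrank_one_of_scalar)
open Pool.Agent.R915 (KW)
open Pool.Agent.H926.A

noncomputable section

section tr

variable {G a : ℕ} {Z : Matrix (Fin G) (Fin G) ℂ} {Z₁ : Matrix (Fin a) (Fin a) ℂ}
  {U : Submodule ℂ (Fin G ⊕ Fin G → ℂ)}

theorem finrank_inj' {V V' : Type} [AddCommGroup V] [Module ℂ V] [AddCommGroup V'] [Module ℂ V']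
    [FiniteDimensional ℂ V] {U : Submodule ℂ V} (T : V →ₗ[ℂ] V')
    (hi : ∀ u ∈ U, T u = 0 → u = 0) : finrank ℂ (U.map T) = finrank ℂ U := by
  have h1 := LinearMap.finrank_range_of_inj (f := T.domRestrict U) (by
    rw [injective_iff_map_eq_zero]
    intro u hu
    exact Subtype.ext (hi u u.2 hu))
  rw [← h1]
  have h2 : LinearMap.range (T.domRestrict U) = U.map T := by
    rw [← Submodule.map_top, LinearMap.domRestrict, Submodule.map_comp, Submodule.map_subtype_top]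
  rw [h2]

/-- Equivariant maps which are injective on `U` preserve the dimensions and the traces. -/
theorem tr_equiv (hU : Stab (LZ Z) U) (T : (Fin G ⊕ Fin G → ℂ) →ₗ[ℂ] (Fin a ⊕ Fin a → ℂ))
    (hT : ∀ v ∈ U, T (DZ Z *ᵥ v) = DZ Z₁ *ᵥ T v) (hi : ∀ u ∈ U, T u = 0 → u = 0) :
    tr Z₁ (U.map T) = tr Z U := by
  have hfr : ∀ V : Submodule ℂ (Fin G ⊕ Fin G → ℂ), V ≤ U →
      finrank ℂ (V.map T) = finrank ℂ V := fun V hV =>
    finrank_inj' T fun u hu => hi u (hV hu)
  have heig : ∀ c : ℂ, (U ⊓ eig Z c).map T = U.map T ⊓ eig Z₁ c := by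
    intro c
    ext v
    constructor
    · rintro ⟨u, ⟨hu, hu'⟩, rfl⟩
      refine ⟨⟨u, hu, rfl⟩, ?_⟩
      rw [SetLike.mem_coe, mem_eig] at hu' ⊢
      rw [← hT u hu, hu', map_smul]
    · rintro ⟨⟨u, hu, rfl⟩, hv⟩
      refine ⟨u, ⟨hu, ?_⟩, rfl⟩
      rw [SetLike.mem_coe, mem_eig] at hv ⊢
      rw [← sub_eq_zero]
      refine hi _ (U.sub_mem (hU _ DZ_mem u hu) (U.smul_mem c hu)) ?_
      rw [map_sub, hT u hu, hv, map_smul, sub_self]
  unfold tr pd qd
  rw [← heig, ← heig, hfr _ inf_le_left, hfr _ inf_le_left]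

/-- If the complex structure is a scalar on `U` then the dimension is one. -/
theorem one_of_scalar (hU : IrS (LZ Z) U) {ε : Matrix (Fin G ⊕ Fin G) (Fin G ⊕ Fin G) ℂ}
    {T : (Fin G ⊕ Fin G → ℂ) →ₗ[ℂ] (Fin G ⊕ Fin G → ℂ)} (e1 : ε * ε = ε)
    {w : ℂ} {D : ℚ} (hD : 0 < D) (hw : w * w = -(D : ℂ))
    (e3 : ∀ i j, ∃ x y : ℚ, ε i j = x + y * w)
    (e5 : ∀ X ∈ LZ Z, ∀ u ∈ U, T (X *ᵥ u) = X *ᵥ T u) (e6 : ∀ u ∈ U, T u = 0 → u = 0)
    (e7 : ∀ v, v ∈ U.map T ↔ ε *ᵥ v = v) {δ : ℤ}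
    (hδ : ∀ u ∈ U, DZ Z *ᵥ u = (δ : ℂ) • u) : finrank ℂ U = 1 := by
  have hconj : ∀ τ : ℂ ≃+* ℂ, τ w = w ∨ τ w = -w := by
    intro τ
    have k1 : τ w * τ w = w * w := by
      rw [← map_mul, hw, map_neg, map_ratCast]
    exact mul_self_eq_mul_self_iff.1 k1
  have hcc : cc w = -w := by
    rcases hconj cc with h6 | h6
    · exfalso
      rw [cc_apply, Complex.conj_eq_iff_real] at h6
      obtain ⟨r, hr⟩ := h6
      rw [hr] at hw
      have h7 : (r * r : ℝ) = -(D : ℝ) := by exact_mod_cast hw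
      have h8 : (0 : ℝ) < (D : ℝ) := by exact_mod_cast hD
      nlinarith [mul_self_nonneg r]
    · exact h6
  have hmapn : ∀ τ τ' : ℂ ≃+* ℂ, τ w = τ' w → ε.map τ = ε.map τ' := by
    intro τ τ' hτ
    ext i j
    obtain ⟨x, y, hxy⟩ := e3 i j
    rw [Matrix.map_apply, Matrix.map_apply, hxy, map_add, map_add, map_mul, map_mul, hτ,
      map_ratCast, map_ratCast, map_ratCast, map_ratCast]
  -- the complex structure on the image
  have hDε : DZ Z * ε = (δ : ℂ) • ε := by
    apply Matrix.toLin'.injective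
    refine LinearMap.ext fun v => ?_
    rw [Matrix.toLin'_apply, Matrix.toLin'_apply, ← mulVec_mulVec, smul_mulVec]
    have h1 : ε *ᵥ v ∈ U.map T := (e7 _).2 (by rw [mulVec_mulVec, e1])
    obtain ⟨u, hu, hu'⟩ := h1
    rw [← hu', ← e5 _ DZ_mem u hu, hδ u hu, map_smul]
  have hσ : ∀ σ : ℂ ≃+* ℂ, ∃ c : ℂ, DS Z σ * ε = c • ε := by
    intro σ
    rcases hconj σ with h6 | h6
    · refine ⟨(δ : ℂ), ?_⟩
      have k1 : ε.map σ = ε := by
        have k2 := hmapn σ (RingEquiv.refl ℂ) h6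
        rw [k2]
        ext i j
        rfl
      have k3 := congrArg (fun M : Matrix _ _ ℂ => M.map σ) hDε
      beta_reduce at k3
      rw [Matrix.map_mul, k1] at k3
      unfold DS
      rw [k3]
      ext i j
      have k4 := congrFun (congrFun k1 i) j
      rw [Matrix.map_apply] at k4
      simp only [Matrix.map_apply, Matrix.smul_apply, smul_eq_mul, map_mul, map_intCast, k4]
    · refine ⟨-(δ : ℂ), ?_⟩
      have h7 : σ.symm w = -w := by
        apply σ.injective
        rw [RingEquiv.apply_symm_apply, map_neg, h6, neg_neg]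
      have k1 : ε.map σ.symm = ε.map cc := hmapn _ _ (by rw [h7, hcc])
      have k2 : (ε.map cc).map σ = ε := by
        rw [← k1]
        ext i j
        simp
      have k3 : (DZ Z).map cc = -DZ Z := by
        ext i j
        exact congrFun (congrFun (Pool.Agent.Y90.DZ_conj (Z := Z)) i) j
      have k4 := congrArg (fun M : Matrix _ _ ℂ => (M.map cc).map σ) hDε
      beta_reduce at k4
      rw [Matrix.map_mul, Matrix.map_mul, k2, k3] at k4
      have k5 : ((-DZ Z).map σ) = -DS Z σ := by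
        unfold DS
        ext i j
        simp
      rw [k5] at k4
      have k6 : (((δ : ℂ) • ε).map cc).map σ = (δ : ℂ) • ε := by
        ext i j
        have k7 := congrFun (congrFun k2 i) j
        rw [Matrix.map_apply, Matrix.map_apply] at k7
        simp only [Matrix.map_apply, Matrix.smul_apply, smul_eq_mul, map_mul, map_intCast, k7]
      rw [k6, Matrix.neg_mul] at k4
      rw [neg_smul, ← k4, neg_neg]
  refine finrank_one_of_scalar hU fun σ => ?_
  obtain ⟨c, hc⟩ := hσ σ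
  refine ⟨c, fun u hu => ?_⟩
  have h1 : ε *ᵥ T u = T u := (e7 _).1 ⟨u, hu, rfl⟩
  have h2 : T (DS Z σ *ᵥ u) = T (c • u) := by
    rw [e5 _ (DS_mem σ) u hu, map_smul, ← h1, mulVec_mulVec, hc, smul_mulVec]
  have h3 := e6 (DS Z σ *ᵥ u - c • u)
    (U.sub_mem (hU.2.1 _ (DS_mem σ) u hu) (U.smul_mem c hu)) (by rw [map_sub, h2, sub_self])
  exact sub_eq_zero.1 h3

/-- The trace is small. -/
theorem small_tr (h : PM Z) (hU : IrS (LZ Z) U) (hA : ¬AltE (LZ Z) U) (hP : PDq (LZ Z) U) :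
    finrank ℂ U ≠ 2 ∧ (tr Z U).natAbs ≤ max 1 (finrank ℂ U - 2) := by
  refine ⟨s_qtwo s_qtr G Z h U hU hA hP, ?_⟩
  obtain ⟨w, D, ε, T, hD, hw, e1, e2, e3, e5, e6, e7⟩ := hP
  have hsum : pd Z U + qd Z U = finrank ℂ U := pd_add_qd h hU.2.1
  obtain ⟨hb, ht⟩ := split_eig h hU.2.1
  by_cases hp : pd Z U = 0
  · have h1 : U ⊓ eig Z 1 = ⊥ := Submodule.finrank_eq_zero.1 hp
    rw [h1, bot_sup_eq] at ht
    have h2 := one_of_scalar hU e1 hD hw e3 e5 e6 e7 (δ := -1) (fun u hu => by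
      rw [← ht] at hu
      have h3 := mem_eig.1 hu.2
      rw [h3]
      push_cast
      rfl)
    unfold tr
    omega
  · by_cases hq : qd Z U = 0
    · have h1 : U ⊓ eig Z (-1) = ⊥ := Submodule.finrank_eq_zero.1 hq
      rw [h1, sup_bot_eq] at ht
      have h2 := one_of_scalar hU e1 hD hw e3 e5 e6 e7 (δ := 1) (fun u hu => by
        rw [← ht] at hu
        have h3 := mem_eig.1 hu.2
        rw [h3]
        push_cast
        rfl)
      unfold tr
      omega
    · unfold tr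
      omega

end tr

end

end Pool.Agent.H926.B
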