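import Mathlib
import Pool.Agent.H926.B.Asm
import Pool.Agent.H926.A.Last

/-!
# Hodge classes on powers: small Weil classes
-/

set_option linter.unusedSectionVars false

namespace Pool.Agent.H926.B

open Matrix Module Pool.Agent.Y90 Pool.Agent.W437.HC Pool.Agent.W437.HD
  Pool.Agent.TH504.CB Pool.Agent.W522.U
open Pool.Agent.W548.Odd hiding cv
open Pool.Agent.H204R3.CM (IsHodge)
open Pool.Agent.W437.HP (cK cK_mul cK_one)
open Pool.Agent.H926
open Pool.Agent.H926.T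
open Pool.Agent.H926.A
open TraL (opQ matQ_opQ)

noncomputable section

variable {G g : ℕ} {c : Prop} {Z : Matrix (Fin G) (Fin G) ℂ}

/-- All invariant forms. -/
theorem all_small (h : PM Z) (hq : QF Z) (hg : Sm Z g) (hb : BrH Z) :
    AllFq Z (min G (bnd g)) c :=
  allF_ofZ (s_det h hq hg c) (s_det1 h hq hg c) lem.formq lem.rk1 lem.twi lem.ort lem.o3 lem.lb h
    (s_qloc G Z h hq) hb

/-- The simple factors of powers. -/
theorem sm_pow (h : PM Z) (n : ℕ) {G' : ℕ} {Z' : Matrix (Fin G') (Fin G') ℂ} (h' : PM Z')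
    (A : (Fin n → (Fin G ⊕ Fin G → ℚ)) ≃ₗ[ℚ] (Fin G' ⊕ Fin G' → ℚ))
    (hC : Cht ((powPer (perOne Z) n).comp A.symm.toLinearMap.toAddMonoidHom) (JR Z')) :
    Sm Z' G := by
  constructor
  · intro a Z₁ E₁ F₁ hf h₁ hs ha
    obtain ⟨E', F', hf'⟩ := s_facp G Z h n G' Z' h' A hC a Z₁ E₁ F₁ hf h₁ hs ha
    exact (sm_self Z).1 a Z₁ E' F' hf' h₁ hs ha
  · intro a b Z₁ Z₂ E₁ F₁ E₂ F₂ hf₁ hf₂ h₁ h₂ hs₁ hs₂ ha hb hR
    obtain ⟨E', F', hf₁'⟩ := s_facp G Z h n G' Z' h' A hC a Z₁ E₁ F₁ hf₁ h₁ hs₁ ha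
    obtain ⟨E'', F'', hf₂'⟩ := s_facp G Z h n G' Z' h' A hC b Z₂ E₂ F₂ hf₂ h₂ hs₂ hb
    exact (sm_self Z).2 a b Z₁ Z₂ E' F' E'' F'' hf₁' hf₂' h₁ h₂ hs₁ hs₂ ha hb hR

/-- **Hodge classes on powers: period matrices.** -/
theorem pow_small (h : PM Z) (hq : QF Z) (hb : BrH Z) (n : ℕ) {κ : Type}
    [Finite κ] (f : (Fin n → (Fin G ⊕ Fin G → ℚ)) [⋀^κ]→ₗ[ℚ] ℚ)
    (hf : IsHodge (powPer (perOne Z) n) f) :
    QR (powPer (perOne Z) n) (min (n * G) (bnd G)) c κ f := by
  have hX : St.IsAV (perOne Z) := h.isAV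
  have hXn : St.IsAV (powPer (perOne Z) n) := s_pav _ _ (perOne Z) hX n
  obtain ⟨G', Z', h', A', hC'⟩ := exists_ppav hXn
  have hG' : G' = n * G := by
    have h1 := A'.finrank_eq
    rw [Module.finrank_fintype_fun_eq_card, Module.finrank_pi_fintype] at h1
    simp only [Module.finrank_fintype_fun_eq_card, Fintype.card_sum, Fintype.card_fin,
      Finset.sum_const, Finset.card_univ, smul_eq_mul] at h1
    have h2 : n * (G + G) = 2 * (n * G) := by ring
    omega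
  have hq' : QF Z' := by
    intro a Z₁ E F hf' h₁ hs ha
    obtain ⟨E', F', hf''⟩ := s_facp G Z h n G' Z' h' A' hC' a Z₁ E F hf' h₁ hs ha
    exact hq a Z₁ E' F' hf'' h₁ hs ha
  have hC0 : Cht ((perOne Z).comp (LinearEquiv.refl ℚ (Fin G ⊕ Fin G → ℚ)).symm.toLinearMap.toAddMonoidHom)
      (JR Z) := h.cht
  obtain ⟨t1, t2⟩ := s_tra _ _ (perOne Z) G Z h (LinearEquiv.refl ℚ _) hC0
  have hbr : ∀ x y : (Fin G ⊕ Fin G → ℚ) →ₗ[ℚ] (Fin G ⊕ Fin G → ℚ), InLef (perOne Z) x →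
      InLef (perOne Z) y → InHdg (perOne Z) (x ∘ₗ y - y ∘ₗ x) := by
    intro x y hx hy
    refine (t2 _).2 ?_
    rw [matQ_br, qm_br]
    exact hb _ ((t1 x).1 hx) _ ((t1 y).1 hy)
  have hb' := brh_of h' A' hC' (hbr_pow hX hbr n)
  subst hG'
  exact hodge_abs h' A' hC' (fun g hg => hodge_altq h' (altFoq_of_all
    (all_small h' hq' (sm_pow h n h' A' hC') hb')) g hg) f hf

section abs

variable {H T : Type} [AddCommGroup H] [Module ℚ H] [AddCommGroup T] [Module ℂ T] {per : H →+ T}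

/-- **Hodge classes on powers, from the commutators.** -/
theorem crit_small (hX : St.IsAV per)
    (hq : ∀ U : Submodule ℚ H, St.IsSimpleSub per U → IsRQSub per U)
    (hbr : ∀ x y : H →ₗ[ℚ] H, InLef per x → InLef per y → InHdg per (x ∘ₗ y - y ∘ₗ x)) (n : ℕ)
    {κ : Type} [Finite κ] (f : (Fin n → H) [⋀^κ]→ₗ[ℚ] ℚ) (hf : IsHodge (powPer per n) f) :
    QR (powPer per n) (min (n * finrank ℂ T) (bnd (finrank ℂ T))) c κ f := by
  obtain ⟨G, Z, h, A, hC⟩ := exists_ppav hX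
  obtain rfl : G = finrank ℂ T := by
    have h1 := A.finrank_eq
    rw [Module.finrank_fintype_fun_eq_card, Fintype.card_sum, Fintype.card_fin] at h1
    have h3 := hX.2.2.2.1
    omega
  have hq' := s_qgood H T per _ Z A hC hq
  exact pow_transport h A hC n (fun g hg => pow_small h hq' (brh_of h A hC hbr) n g hg) f hf

/-- **Hodge classes on powers of abelian varieties of dimension at most seven.** -/
theorem pow_seven_small (hX : St.IsAV per) (h7 : finrank ℂ T ≤ 7)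
    (hq : ∀ U : Submodule ℚ H, St.IsSimpleSub per U → IsRQSub per U) (n : ℕ)
    (hn : n ≤ 1 ∨ ∀ (H' T' : Type) [AddCommGroup H'] [Module ℚ H'] [AddCommGroup T'] [Module ℂ T']
      (per' : H' →+ T') (q : H →ₗ[ℚ] H'), St.IsHom per per' q → Function.Surjective q →
        ¬IsMumfordType per') {κ : Type} [Finite κ]
    (f : (Fin n → H) [⋀^κ]→ₗ[ℚ] ℚ) (hf : IsHodge (powPer per n) f) :
    QR (powPer per n) (min (n * finrank ℂ T) (bnd (finrank ℂ T))) c κ f := by
  rcases hn with hn | hno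
  · have h1 : min (n * finrank ℂ T) (bnd (finrank ℂ T)) = n * finrank ℂ T := by
      refine min_eq_left ?_
      refine le_trans ?_ (le_max_left _ _)
      calc n * finrank ℂ T ≤ 1 * finrank ℂ T := Nat.mul_le_mul_right _ hn
        _ = finrank ℂ T := one_mul _
    rw [h1]
    exact pow_of lem c hX h7 hq n (Or.inl hn) f hf
  · obtain ⟨G, Z, h, A, hC⟩ := exists_ppav hX
    obtain rfl : G = finrank ℂ T := by
      have h1 := A.finrank_eq
      rw [Module.finrank_fintype_fun_eq_card, Fintype.card_sum, Fintype.card_fin] at h1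
      have h3 := hX.2.2.2.1
      omega
    have hb : BrH Z := brh_seven (s_gbr s_facp) s_t3l s_brd h h7 fun a Z' E F hf' h' hM => by
      obtain ⟨q, hq, hs, hM'⟩ := s_mq H T per _ Z h A hC a Z' E F hf' h' hM
      exact hno _ _ (perOne Z') q hq hs hM'
    have hq' := s_qgood H T per _ Z A hC hq
    exact pow_transport h A hC n (fun g hg => pow_small h hq' hb n g hg) f hf

end abs

end

end Pool.Agent.H926.B
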