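import Mathlib
import Pool.Agent.H926.B.Top
import Pool.Agent.H926.T.Main7

/-!
# Hodge classes on the abelian varieties built from factors of one of dimension at most seven
-/

set_option linter.unusedSectionVars false

namespace Pool.Agent.H926.B

open Matrix Module Pool.Agent.Y90 Pool.Agent.W437.HC Pool.Agent.W437.HD
  Pool.Agent.TH504.CB Pool.Agent.W522.U
open Pool.Agent.W548.Odd hiding cv
open Pool.Agent.H204R3.CM (IsHodge)
open Pool.Agent.W437.HP (cK cK_mul cK_one)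
open Pool.Agent.H926
open Pool.Agent.H926.T
open Pool.Agent.H926.A
open Pool.Agent.Y4.P (WeilRing)
open Pool.Agent.R915 (IsFactor)

noncomputable section

section retract

variable {H T H₁ T₁ : Type} [AddCommGroup H] [Module ℚ H] [AddCommGroup T] [Module ℂ T]
  [AddCommGroup H₁] [Module ℚ H₁] [AddCommGroup T₁] [Module ℂ T₁] {per : H →+ T} {per₁ : H₁ →+ T₁}

/-- The condition on the commutators passes to direct factors. -/
theorem br_retract (hX : St.IsAV per) (h₁ : St.IsAV per₁) {p : H₁ →ₗ[ℚ] H} {q : H →ₗ[ℚ] H₁}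
    (hp : St.IsHom per₁ per p) (hq : St.IsHom per per₁ q) (hpq : ∀ v, p (q v) = v)
    (hbr : ∀ x y : H₁ →ₗ[ℚ] H₁, InLef per₁ x → InLef per₁ y → InHdg per₁ (x ∘ₗ y - y ∘ₗ x)) :
    ∀ x y : H →ₗ[ℚ] H, InLef per x → InLef per y → InHdg per (x ∘ₗ y - y ∘ₗ x) := by
  refine (tstar hX).1 fun n κ _ f hf => ?_
  obtain ⟨Ψp, hΨp⟩ := hp
  obtain ⟨Ψq, hΨq⟩ := hq
  let P : (Fin n → H₁) →ₗ[ℚ] (Fin n → H) := LinearMap.pi fun i => p ∘ₗ LinearMap.proj i
  let Q : (Fin n → H) →ₗ[ℚ] (Fin n → H₁) := LinearMap.pi fun i => q ∘ₗ LinearMap.proj i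
  let ΘP : (Fin n → T₁) →ₗ[ℂ] (Fin n → T) := LinearMap.pi fun i => Ψp ∘ₗ LinearMap.proj i
  let ΘQ : (Fin n → T) →ₗ[ℂ] (Fin n → T₁) := LinearMap.pi fun i => Ψq ∘ₗ LinearMap.proj i
  have g₁ : ∀ w, ΘP (powPer per₁ n w) = powPer per n (P w) := fun w => by
    funext i
    exact hΨp (w i)
  have g₂ : ∀ w, ΘQ (powPer per n w) = powPer per₁ n (Q w) := fun w => by
    funext i
    exact hΨq (w i)
  have h5 : IsHodge (powPer per₁ n) (f.compLinearMap P) :=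
    Pool.Agent.TH504.CB.isHodge_comp P ΘP g₁ hf
  have h6 := (tstar h₁).2 hbr n κ _ h5
  have h7 := Pool.Agent.Y275.P.pull h6 Q ΘQ g₂
  have h8 : (f.compLinearMap P).compLinearMap Q = f := by
    ext v
    rw [AlternatingMap.compLinearMap_apply, AlternatingMap.compLinearMap_apply]
    congr 1
    funext k i
    exact hpq (v k i)
  rwa [h8] at h7

end retract

/-- The simple factors of `X` are simple factors of `A`: period matrices. -/
theorem fac_move {A X : AV} (hX : ∀ Y, IsFactor Y X → IsFactor Y A) {G g : ℕ}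
    {Z : Matrix (Fin G) (Fin G) ℂ} (h : PM Z) (e : X.H ≃ₗ[ℚ] (Fin G ⊕ Fin G → ℚ))
    (hC : Cht (X.per.comp e.symm.toLinearMap.toAddMonoidHom) (JR Z))
    {Z' : Matrix (Fin g) (Fin g) ℂ} (h' : PM Z') (e' : A.H ≃ₗ[ℚ] (Fin g ⊕ Fin g → ℚ))
    (hC' : Cht (A.per.comp e'.symm.toLinearMap.toAddMonoidHom) (JR Z')) (a : ℕ)
    (Z₁ : Matrix (Fin a) (Fin a) ℂ) (E : Matrix (Fin G ⊕ Fin G) (Fin a ⊕ Fin a) ℚ)
    (F : Matrix (Fin a ⊕ Fin a) (Fin G ⊕ Fin G) ℚ) (hf : Fac Z Z₁ E F) (h₁ : PM Z₁)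
    (hs : IsSimpleAV Z₁) (ha : 0 < a) : ∃ E' F', Fac Z' Z₁ E' F' := by
  obtain ⟨-, z2⟩ := s_fz X G Z h e hC
  obtain ⟨z1, -⟩ := s_fz A g Z' h' e' hC'
  obtain ⟨-, i, ⟨Ψ, hΨ⟩, hinj⟩ := (z1 _).1 (hX _ (z2 a Z₁ E F hf h₁ hs ha))
  let i' : (Fin a ⊕ Fin a → ℚ) →ₗ[ℚ] (Fin g ⊕ Fin g → ℚ) := i
  have hi' : ∀ v, LinearMap.toMatrix' i' *ᵥ v = i' v := fun v => by
    rw [LinearMap.toMatrix'_mulVec]
  have h2 := FacL.mat_of_hom (R := LinearMap.toMatrix' i') h₁.cht h'.cht Ψ (fun v => by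
    rw [hi' v]
    exact hΨ v)
  have h3 := FacL.cplx_of_real h2
  rw [DJ_JR, DJ_JR] at h3
  have h0 : LinearMap.toMatrix' i' ≠ 0 := by
    intro h0
    have h4 : i' (Pi.single (Sum.inl ⟨0, ha⟩) 1) = 0 := by
      rw [← hi', h0, zero_mulVec]
    have h5 : (Pi.single (Sum.inl ⟨0, ha⟩) 1 : Fin a ⊕ Fin a → ℚ) = 0 :=
      hinj (by rw [map_zero]; exact h4)
    have h6 := congrFun h5 (Sum.inl ⟨0, ha⟩)
    rw [Pi.single_eq_same] at h6
    exact one_ne_zero h6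
  obtain ⟨F', hF'⟩ := FacL.fac_of_hom h' h₁ hs h3.symm h0
  exact ⟨_, F', hF'⟩

variable {c : Prop}

/-- The commutators of the Lefschetz Lie algebra, for the abelian varieties built from factors of one of
dimension at most seven. -/
theorem br_seven (A X : AV) (h7 : finrank ℂ A.T ≤ 7) (hX : ∀ Y, IsFactor Y X → IsFactor Y A)
    (hM : ∀ Y, IsFactor Y X → ¬IsMumfordType Y.per) :
    ∀ x y : X.H →ₗ[ℚ] X.H, InLef X.per x → InLef X.per y → InHdg X.per (x ∘ₗ y - y ∘ₗ x) := by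
  obtain ⟨B, i, r, n, P, Q, s, hi, hr, hri, hP, hQ, hPQ, hs, hsi⟩ := s_rda A X hX
  have hAV : St.IsAV B.per := ⟨B.finH, B.finT, B.span, B.rank, B.pol⟩
  obtain ⟨a, Z', h', e, hC'⟩ := exists_ppav hAV
  have ha : a ≤ 7 := by
    have h1 := e.finrank_eq
    rw [Module.finrank_fintype_fun_eq_card, Fintype.card_sum, Fintype.card_fin] at h1
    have := A.finH
    have h2 := LinearMap.finrank_le_finrank_of_injective hsi
    have h3 := A.rank
    omega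
  obtain ⟨z1, z2⟩ := s_fz B a Z' h' e hC'
  have hii : Function.Injective i := fun v w hvw => by rw [← hri v, ← hri w, hvw]
  have hbr : BrH Z' := by
    refine brh_seven (s_gbr s_facp) s_t3l s_brd h' ha fun a₁ Z₁ E₁ F₁ hf₁ h₁ hM₁ => ?_
    have hs₁ := s_msi a₁ Z₁ h₁ hM₁
    have ha₁ := hM₁.four
    obtain ⟨hs1, k, hk, hk'⟩ := z2 a₁ Z₁ E₁ F₁ hf₁ h₁ hs₁ (by omega)
    have hfa : IsFactor (AVZ h₁) X :=
      ⟨hs1, i.comp k, Pool.Agent.R915.IsHom.comp' hi hk, hii.comp hk'⟩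
    obtain ⟨q, hq, hqs, hM'⟩ := s_mq B.H B.T B.per _ Z' h' e hC' a₁ Z₁ E₁ F₁ hf₁ h₁ hM₁
    exact hM _ hfa hM'
  obtain ⟨t1, t2⟩ := s_tra _ _ B.per a Z' h' e hC'
  have hbrB : ∀ x y : B.H →ₗ[ℚ] B.H, InLef B.per x → InLef B.per y →
      InHdg B.per (x ∘ₗ y - y ∘ₗ x) := fun x y hx hy => (t2 _).2 (by
    rw [matQ_br, qm_br]
    exact hbr _ ((t1 x).1 hx) _ ((t1 y).1 hy))
  -- the homomorphisms to and from the power
  choose ΨP hΨP using hP
  choose ΨQ hΨQ using hQ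
  refine br_retract (p := ∑ k, (P k) ∘ₗ (LinearMap.proj k)) (q := LinearMap.pi Q)
    ⟨X.finH, X.finT, X.span, X.rank, X.pol⟩ (s_pav _ _ B.per hAV n)
    ⟨∑ k, (ΨP k) ∘ₗ (LinearMap.proj k), ?_⟩ ⟨LinearMap.pi ΨQ, ?_⟩ ?_ (hbr_pow hAV hbrB n)
  · intro w
    rw [LinearMap.sum_apply, LinearMap.sum_apply, map_sum]
    exact Finset.sum_congr rfl fun k _ => hΨP k (w k)
  · intro v
    funext k
    exact hΨQ k v
  · intro v
    rw [LinearMap.sum_apply]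
    exact hPQ v

/-- **Hodge classes on the abelian varieties built from factors of one of dimension at most seven.** -/
theorem fac_small (A X : AV) (h7 : finrank ℂ A.T ≤ 7)
    (hq : ∀ U : Submodule ℚ A.H, St.IsSimpleSub A.per U → IsRQSub A.per U)
    (hX : ∀ Y, IsFactor Y X → IsFactor Y A) (hM : ∀ Y, IsFactor Y X → ¬IsMumfordType Y.per)
    {κ : Type} [Finite κ] (f : X.H [⋀^κ]→ₗ[ℚ] ℚ) (hf : IsHodge X.per f) :
    QR X.per (min (finrank ℂ X.T) (bnd (finrank ℂ A.T))) c κ f := by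
  have hAX : St.IsAV X.per := ⟨X.finH, X.finT, X.span, X.rank, X.pol⟩
  have hAA : St.IsAV A.per := ⟨A.finH, A.finT, A.span, A.rank, A.pol⟩
  obtain ⟨G, Z, h, e, hC⟩ := exists_ppav hAX
  obtain ⟨g, Z', h', e', hC'⟩ := exists_ppav hAA
  obtain rfl : G = finrank ℂ X.T := by
    have h1 := e.finrank_eq
    rw [Module.finrank_fintype_fun_eq_card, Fintype.card_sum, Fintype.card_fin] at h1
    have h3 := X.rank
    omega
  obtain rfl : g = finrank ℂ A.T := by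
    have h1 := e'.finrank_eq
    rw [Module.finrank_fintype_fun_eq_card, Fintype.card_sum, Fintype.card_fin] at h1
    have h3 := A.rank
    omega
  have hmv := fun a Z₁ E F hf h₁ hs ha => fac_move hX h e hC h' e' hC' a Z₁ E F hf h₁ hs ha
  have hq' : QF Z' := s_qgood A.H A.T A.per _ Z' e' hC' hq
  have hqX : QF Z := by
    intro a Z₁ E F hf h₁ hs ha
    obtain ⟨E', F', hf''⟩ := hmv a Z₁ E F hf h₁ hs ha
    exact hq' a Z₁ E' F' hf'' h₁ hs ha
  have hSm : Sm Z (finrank ℂ A.T) := by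
    constructor
    · intro a Z₁ E₁ F₁ hf h₁ hs ha
      obtain ⟨E', F', hf'⟩ := hmv a Z₁ E₁ F₁ hf h₁ hs ha
      exact (sm_self Z').1 a Z₁ E' F' hf' h₁ hs ha
    · intro a b Z₁ Z₂ E₁ F₁ E₂ F₂ hf₁ hf₂ h₁ h₂ hs₁ hs₂ ha hb hR
      obtain ⟨E', F', hf₁'⟩ := hmv a Z₁ E₁ F₁ hf₁ h₁ hs₁ ha
      obtain ⟨E'', F'', hf₂'⟩ := hmv b Z₂ E₂ F₂ hf₂ h₂ hs₂ hb
      exact (sm_self Z').2 a b Z₁ Z₂ E' F' E'' F'' hf₁' hf₂' h₁ h₂ hs₁ hs₂ ha hb hR
  have hb : BrH Z := brh_of h e hC (br_seven A X h7 hX hM)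
  exact hodge_abs h e hC (fun g hg => hodge_altq h (altFoq_of_all (all_small h hqX hSm hb)) g hg) f hf

/-- **The same in dimension at most seven**, with factors of Mumford's type allowed. -/
theorem dim_small (A X : AV) (hX7 : finrank ℂ X.T ≤ 7)
    (hq : ∀ U : Submodule ℚ A.H, St.IsSimpleSub A.per U → IsRQSub A.per U)
    (hX : ∀ Y, IsFactor Y X → IsFactor Y A)
    {κ : Type} [Finite κ] (f : X.H [⋀^κ]→ₗ[ℚ] ℚ) (hf : IsHodge X.per f) :
    QR X.per (finrank ℂ X.T) c κ f := by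
  have hAX : St.IsAV X.per := ⟨X.finH, X.finT, X.span, X.rank, X.pol⟩
  have hAA : St.IsAV A.per := ⟨A.finH, A.finT, A.span, A.rank, A.pol⟩
  obtain ⟨G, Z, h, e, hC⟩ := exists_ppav hAX
  obtain ⟨g, Z', h', e', hC'⟩ := exists_ppav hAA
  obtain rfl : G = finrank ℂ X.T := by
    have h1 := e.finrank_eq
    rw [Module.finrank_fintype_fun_eq_card, Fintype.card_sum, Fintype.card_fin] at h1
    have h3 := X.rank
    omega
  have hmv := fun a Z₁ E F hf h₁ hs ha => fac_move hX h e hC h' e' hC' a Z₁ E F hf h₁ hs ha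
  have hq' : QF Z' := s_qgood A.H A.T A.per _ Z' e' hC' hq
  have hqX : QF Z := by
    intro a Z₁ E F hf h₁ hs ha
    obtain ⟨E', F', hf''⟩ := hmv a Z₁ E F hf h₁ hs ha
    exact hq' a Z₁ E' F' hf'' h₁ hs ha
  exact hodge_abs h e hC (fun g hg => hodge_altq h
    (lem.seven (s_gbr s_facp) s_t3l s_brd h hX7 le_rfl hqX) g hg) f hf

end

end Pool.Agent.H926.B
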