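import Mathlib
import Pool.Agent.H926.A.Quad
import Pool.Agent.H926.B.Fac

/-!
# The ring generated by divisors and small Weil classes for imaginary quadratic fields

A complex abelian variety `X` (up to isogeny) is given by `H = H_1(X, ℚ)`, the tangent space `T` and
the period map `per : H → T`; a class in `H^κ(X, ℚ)` is an alternating form on `H` in variables
indexed by the finite set `κ`. See `Pool.Agent.H204R3.CM.Defs` (`IsHodge`) and `Pool.Agent.Y90.Stm`
(`IsAV`: polarizable; `IsHom`: homomorphisms; `IsSimpleSub`: simple abelian subvarieties;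
`HasTrivialDisc`: the abelian sixfold `Y` with the endomorphism `j = √-D` has discriminant `-1`).
-/

namespace Pool.Agent.H926.B.Ring

open Module
open Pool.Agent.H204R3.CM (IsHodge)
open Pool.Agent.Y90 (AV)
open Pool.Agent.Y90.St (IsAV IsHom IsSimpleSub HasTrivialDisc)
open Pool.Agent.R915 (IsFactor)
open Pool.Agent.H926.A.Quad (RealOrQuadratic IsWeilClass)

/-- The smallest system of cohomology classes `f ∈ H^κ(X, ℚ)` of the abelian variety `X` which contains
the classes of degree zero, the Hodge classes of degree two and the pull-backs along homomorphisms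
`X → Y` of the Weil classes for imaginary quadratic fields on abelian varieties `Y` of dimension `n`,
where
* `n` is `4` or `6`, or `n = 8` and `g ≥ 6`, or `n = 10` and `g ≥ 7`,
* `n` is at most the dimension of `X`,
* if `n = 6` then `Y` has discriminant `-1`, or `g ≥ 6` and `Y` is a simple quotient of `X`,

and which is stable under linear combinations and cup products. -/
inductive SmallRing {H T : Type} [AddCommGroup H] [Module ℚ H] [AddCommGroup T] [Module ℂ T]
    (per : H →+ T) (g : ℕ) : (κ : Type) → (H [⋀^κ]→ₗ[ℚ] ℚ) → Prop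
  /-- classes of degree zero -/
  | unit {κ : Type} [IsEmpty κ] (f : H [⋀^κ]→ₗ[ℚ] ℚ) : SmallRing per g κ f
  /-- Hodge classes of degree two -/
  | divisor {κ : Type} (hκ : Nat.card κ = 2) (f : H [⋀^κ]→ₗ[ℚ] ℚ)
      (hf : IsHodge per f) : SmallRing per g κ f
  /-- pull-backs of Weil classes for imaginary quadratic fields -/
  | weil {H' T' : Type} [AddCommGroup H'] [Module ℚ H'] [AddCommGroup T'] [Module ℂ T']
      {per' : H' →+ T'} (hY : IsAV per') {n : ℕ}
      (hn : n = 4 ∨ n = 6 ∨ (n = 8 ∧ 6 ≤ g) ∨ (n = 10 ∧ 7 ≤ g)) (hnX : n ≤ finrank ℂ T) {D : ℚ}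
      {j : H' →ₗ[ℚ] H'}
      (f : H' [⋀^Fin n]→ₗ[ℚ] ℚ) (hf : IsWeilClass per' n D j f) (h : H →ₗ[ℚ] H')
      (hh : IsHom per per' h)
      (h6 : n = 6 → HasTrivialDisc per' D j ∨
        (6 ≤ g ∧ IsSimpleSub per' ⊤ ∧ Function.Surjective h)) :
      SmallRing per g (Fin n) (f.compLinearMap h)
  | zero (κ : Type) : SmallRing per g κ 0
  | add {κ : Type} (f f' : H [⋀^κ]→ₗ[ℚ] ℚ) (hf : SmallRing per g κ f)
      (hf' : SmallRing per g κ f') : SmallRing per g κ (f + f')
  | smul {κ : Type} (a : ℚ) (f : H [⋀^κ]→ₗ[ℚ] ℚ) (hf : SmallRing per g κ f) :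
      SmallRing per g κ (a • f)
  /-- renaming of the variables -/
  | reindex {κ κ' : Type} (e : κ ≃ κ') (f : H [⋀^κ]→ₗ[ℚ] ℚ) (hf : SmallRing per g κ f) :
      SmallRing per g κ' (f.domDomCongr e)
  /-- cup products (up to a factor) -/
  | cup {κ κ' : Type} [Fintype κ] [DecidableEq κ] [Fintype κ'] [DecidableEq κ']
      (f : H [⋀^κ]→ₗ[ℚ] ℚ) (f' : H [⋀^κ']→ₗ[ℚ] ℚ) (hf : SmallRing per g κ f)
      (hf' : SmallRing per g κ' f') (h : H [⋀^κ ⊕ κ']→ₗ[ℚ] ℚ)
      (hh : ∀ v : κ ⊕ κ' → H, h v = ∑ σ : Equiv.Perm (κ ⊕ κ'), ((Equiv.Perm.sign σ : ℤ) : ℚ) *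
        (f (fun k => v (σ (Sum.inl k))) * f' (fun k => v (σ (Sum.inr k))))) :
      SmallRing per g (κ ⊕ κ') h

section aux

variable {H T : Type} [AddCommGroup H] [Module ℚ H] [AddCommGroup T] [Module ℂ T] {per : H →+ T}
  {g : ℕ}

theorem of_ring (hX : IsAV per) {B : ℕ}
    (hB : ∀ n, n ≤ B → 4 ≤ n → Even n →
      (n = 4 ∨ n = 6 ∨ (n = 8 ∧ 6 ≤ g) ∨ (n = 10 ∧ 7 ≤ g)) ∧ n ≤ finrank ℂ T)
    (hS : ∀ (H' T' : Type) [AddCommGroup H'] [Module ℚ H'] [AddCommGroup T'] [Module ℂ T']
      (per' : H' →+ T') (h : H →ₗ[ℚ] H'), IsHom per per' h → Function.Surjective h →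
        IsSimpleSub per' ⊤ → finrank ℚ H' = 12 → 6 ≤ g)
    {κ : Type} {f : H [⋀^κ]→ₗ[ℚ] ℚ}
    (hf : Pool.Agent.H926.A.QR per B True κ f) : SmallRing per g κ f := by
  induction hf with
  | unit f => exact SmallRing.unit f
  | divisor hκ f hf => exact SmallRing.divisor hκ f hf
  | @weil H' T' _ _ _ _ per' hY n hn f hf h hh =>
    by_cases ho : Odd n
    · have h0 : f = 0 := Pool.Agent.H926.A.hodge_odd ho hf.1
      have h1 : f.compLinearMap h = 0 := by
        rw [h0]
        rfl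
      rw [h1]
      exact SmallRing.zero _
    · rw [Nat.not_odd_iff_even] at ho
      obtain ⟨hf1, D, j, hD, hj, hjj, hdim, hmv, h6⟩ := hf
      by_cases h4 : 4 ≤ n
      · obtain ⟨b1, b2⟩ := hB n hn h4 ho
        by_cases hn6 : n = 6
        · subst hn6
          rcases h6 trivial rfl with h7 | h7
          · exact SmallRing.weil hY b1 b2 f ⟨hD, hj, hjj, hdim, hf1, hmv⟩ h hh
              (fun _ => Or.inl h7)
          · rcases Pool.Agent.H926.A.zero_or_surj hX hh h7 with h8 | h8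
            · have h1 : f.compLinearMap h = 0 := by
                ext v
                rw [AlternatingMap.compLinearMap_apply, h8, AlternatingMap.zero_apply]
                exact f.map_coord_zero (0 : Fin 6) rfl
              rw [h1]
              exact SmallRing.zero _
            · exact SmallRing.weil hY b1 b2 f ⟨hD, hj, hjj, hdim, hf1, hmv⟩ h hh
                (fun _ => Or.inr ⟨hS _ _ _ h hh h8 h7 (by rw [hdim]), h7, h8⟩)
        · exact SmallRing.weil hY b1 b2 f ⟨hD, hj, hjj, hdim, hf1, hmv⟩ h hh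
            (fun h => absurd h hn6)
      · obtain ⟨m, hm⟩ := ho
        have hm2 : m = 0 ∨ m = 1 := by omega
        rcases hm2 with rfl | rfl
        · obtain rfl : n = 0 := by omega
          exact SmallRing.unit _
        · obtain rfl : n = 2 := by omega
          obtain ⟨Ψ, hΨ⟩ := hh
          exact SmallRing.divisor (Nat.card_fin 2) _
            (Pool.Agent.TH504.CB.isHodge_comp h Ψ hΨ hf1)
  | zero κ => exact SmallRing.zero κ
  | add f g _ _ hf hg => exact SmallRing.add _ _ hf hg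
  | smul a f _ hf => exact SmallRing.smul a _ hf
  | reindex e f _ hf => exact SmallRing.reindex e _ hf
  | cup f g _ _ h hh hf hg => exact SmallRing.cup _ _ hf hg _ hh

theorem to_ring {κ : Type} {f : H [⋀^κ]→ₗ[ℚ] ℚ} (hf : SmallRing per g κ f) :
    Pool.Agent.H926.A.QR per 10 False κ f := by
  induction hf with
  | unit f => exact Pool.Agent.H926.A.QR.unit f
  | divisor hκ f hf => exact Pool.Agent.H926.A.QR.divisor hκ f hf
  | weil hY hn _ f hf h hh _ =>
    exact Pool.Agent.H926.A.QR.weil hY (by omega) f ⟨hf.hodge, _, _, hf.pos, hf.hom, hf.sq, hf.dim,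
      hf.move, fun h => h.elim⟩ h hh
  | zero κ => exact Pool.Agent.H926.A.QR.zero κ
  | add f g _ _ hf hg => exact Pool.Agent.H926.A.QR.add _ _ hf hg
  | smul a f _ hf => exact Pool.Agent.H926.A.QR.smul a _ hf
  | reindex e f _ hf => exact Pool.Agent.H926.A.QR.reindex e _ hf
  | cup f g _ _ h hh hf hg => exact Pool.Agent.H926.A.QR.cup _ _ hf hg _ hh

theorem isHodge {κ : Type} {f : H [⋀^κ]→ₗ[ℚ] ℚ} (hf : SmallRing per g κ f) : IsHodge per f :=
  Pool.Agent.H926.A.qr_isHodge (to_ring hf)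

end aux

/-- A simple quotient of `X` is not larger than `A`, if all simple factors of `X` are factors of `A`. -/
theorem simple_quot {A X : AV} (hX : ∀ Y, IsFactor Y X → IsFactor Y A)
    (H' T' : Type) [AddCommGroup H'] [Module ℚ H'] [AddCommGroup T'] [Module ℂ T']
    (per' : H' →+ T') (h : X.H →ₗ[ℚ] H') (hh : IsHom X.per per' h) (hs : Function.Surjective h)
    (hsim : IsSimpleSub per' ⊤) : finrank ℚ H' ≤ 2 * finrank ℂ A.T := by
  obtain ⟨B, i, r, n, P, Q, s, hi, hr, hri, hP, hQ, hPQ, hs', hsi⟩ :=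
    Pool.Agent.H926.T.s_rda A X hX
  have hBA : finrank ℚ B.H ≤ 2 * finrank ℂ A.T := by
    have h1 := LinearMap.finrank_le_finrank_of_injective hsi
    rw [A.rank] at h1
    exact h1
  have hB : IsAV B.per := ⟨B.finH, B.finT, B.span, B.rank, B.pol⟩
  obtain ⟨k, hk⟩ : ∃ k, h ∘ₗ P k ≠ 0 := by
    by_contra hcon
    push Not at hcon
    have h0 : h = 0 := by
      ext v
      rw [← hPQ v, map_sum, LinearMap.zero_apply]
      exact Finset.sum_eq_zero fun k _ => LinearMap.congr_fun (hcon k) (Q k v)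
    apply hsim.2.1
    rw [eq_bot_iff]
    intro y _
    obtain ⟨x, rfl⟩ := hs y
    rw [h0]
    exact Submodule.zero_mem _
  have hhk : IsHom B.per per' (h ∘ₗ P k) := by
    obtain ⟨Ψ, hΨ⟩ := hh
    obtain ⟨Ψk, hΨk⟩ := hP k
    exact ⟨Ψ ∘ₗ Ψk, fun v => by
      rw [LinearMap.comp_apply, hΨk, hΨ]
      rfl⟩
  rcases Pool.Agent.H926.A.zero_or_surj hB hhk hsim with h1 | h1
  · exact absurd h1 hk
  · exact (LinearMap.finrank_le_finrank_of_surjective h1).trans hBA

open Pool.Agent.H926.T (IsMumfordType)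

/-- **Hodge classes on the abelian varieties built from factors of one of dimension at most seven.** -/
theorem hodge_small (A X : AV) (h7 : finrank ℂ A.T ≤ 7) (hA : RealOrQuadratic A.per)
    (hX : ∀ Y, IsFactor Y X → IsFactor Y A)
    (hM : finrank ℂ X.T ≤ 7 ∨ ∀ Y, IsFactor Y X → ¬IsMumfordType Y.per)
    {κ : Type} [Finite κ] {f : X.H [⋀^κ]→ₗ[ℚ] ℚ} (hf : IsHodge X.per f) :
    SmallRing X.per (finrank ℂ A.T) κ f := by
  have hAX : IsAV X.per := ⟨X.finH, X.finT, X.span, X.rank, X.pol⟩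
  have hS : ∀ (H' T' : Type) [AddCommGroup H'] [Module ℚ H'] [AddCommGroup T'] [Module ℂ T']
      (per' : H' →+ T') (h : X.H →ₗ[ℚ] H'), IsHom X.per per' h → Function.Surjective h →
        IsSimpleSub per' ⊤ → finrank ℚ H' = 12 → 6 ≤ finrank ℂ A.T := by
    intro H' T' _ _ _ _ per' h hh hs hsim h12
    have h1 := simple_quot hX H' T' per' h hh hs hsim
    omega
  by_cases hM' : ∀ Y, IsFactor Y X → ¬IsMumfordType Y.per
  · refine of_ring hAX ?_ hS (fac_small A X h7 hA hX hM' f hf)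
    intro n hn h4 ho
    obtain ⟨m, rfl⟩ := ho
    have h1 := hn.trans (min_le_left _ _)
    have h2 := hn.trans (min_le_right _ _)
    refine ⟨?_, h1⟩
    unfold bnd at h2
    obtain ⟨g, hg⟩ : ∃ g, g = finrank ℂ A.T := ⟨_, rfl⟩
    rw [← hg] at h2 h7 ⊢
    interval_cases g <;> norm_num at h2 ⊢ <;> omega
  · have h7' : finrank ℂ X.T ≤ 7 := hM.resolve_right hM'
    refine of_ring hAX ?_ hS (dim_small A X h7' hA hX f hf)
    intro n hn h4 ho
    obtain ⟨m, rfl⟩ := ho
    refine ⟨?_, hn⟩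
    omega

end Pool.Agent.H926.B.Ring
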